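import Mathlib

set_option autoImplicit false

namespace Pool.Agent.W_MP_3b55a2_co

/-- The Boros-Moll numbers
`d_l(m) = 2^(-2m) * sum_{k=l}^{m} 2^k C(2m-2k, m-k) C(m+k, m) C(k, l)`. -/
def borosMoll (l m : ℕ) : ℚ :=
  (∑ k ∈ Finset.Icc l m,
    (2 : ℚ) ^ k * ((2 * m - 2 * k).choose (m - k) : ℚ) * ((m + k).choose m : ℚ)
      * (k.choose l : ℚ)) / (2 : ℚ) ^ (2 * m)

/-- `x_l(m) = d_l(m-1) d_l(m+1) / d_l(m)^2`. -/
def secondRatio (l m : ℕ) : ℚ :=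
  borosMoll l (m - 1) * borosMoll l (m + 1) / borosMoll l m ^ 2

end Pool.Agent.W_MP_3b55a2_co
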