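import Pool.Agent.W_MP_3b55a2_co.Poly

set_option autoImplicit false
set_option maxHeartbeats 4000000

namespace Pool.Agent.W_MP_3b55a2_co

/-- The polynomial inequality behind the main theorem. -/
theorem key (n l s : ℚ) (hl : 1 ≤ l) (hn : l + 2 ≤ n) (hs : 0 ≤ s)
    (hsu : s * (4*(4*l^2+3*n)) ≤ 3) :
    (n-1)*((16*((n-1)^2-l^2)-3)+(16*((n-1)^2-l^2)-3+(16*n^2-1))*s)
      *(((16*(n+1)^2-4)*(16*(n+2)^2-4)-3*(16*((n+1)^2-l^2)))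
        - (16*(n^2-l^2))*((16*(n+2)^2-4)+16*((n+1)^2-l^2))*s)
      *(16*n^2-1)^3*(n+1)^3*(n+1-l)^3
    < 16*n^3*(n-l)^3*(n-1+l)*(16*(n-1)^2-1)*(n+2)*(n+2-l)
      *((1+s)*((16*(n+1)^2-4)-(16*(n^2-l^2))*s))^4 := by
  have hnpos : 0 < n := by linarith
  have hnl : 0 < n - l := by linarith
  have hA : 0 < 16*(n+1)^2-4 := by
    have k1 : 0 < (n+1)*(n+1) - 4*4 + 4*4 - 1 := by nlinarith
    have k2 : 16*(n+1)^2-4 = 16*((n+1)*(n+1) - 4*4 + 4*4 - 1) + 12 := by ring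
    rw [k2]; linarith
  have hD : 0 < 16*(n^2-l^2) := by
    have k2 : 16*(n^2-l^2) = 16*((n-l)*(n+l)) := by ring
    have k3 : 0 < n + l := by linarith
    rw [k2]; positivity
  have a2 : 0 < 16*(n-1)^2-1 := by
    have k2 : 16*(n-1)^2-1 = (4*(n-1)-1)*(4*(n-1)+1) := by ring
    have k3 : 0 < 4*(n-1)-1 := by linarith
    have k4 : 0 < 4*(n-1)+1 := by linarith
    rw [k2]; exact mul_pos k3 k4
  have hA3 : 0 ≤ 384*n^2 - 48*n^2 := by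
    have k2 : 384*n^2 - 48*n^2 = 336 * n^2 := by ring
    rw [k2]; positivity
  -- polynomial facts
  have h1 : 0 ≤ -(4*(16*(n+1)^2-4)^3*((16*(n+1)^2-4)-(16*(n^2-l^2)))*((16*(n-1)^2-1)*16*(n-1+l)*n^3*(n-l)^3*(n+2)*(n+2-l))-(16*n^2-1)^3*(((16*(n+1)^2-4)*(16*(n+2)^2-4)-3*(16*((n+1)^2-l^2)))*((16*((n-1)^2-l^2))-3+(16*n^2-1))-((16*(n^2-l^2))*((16*(n+2)^2-4)+(16*((n+1)^2-l^2))))*((16*((n-1)^2-l^2))-3))*((n+1)^3*(n+1-l)^3*(n-1))) := by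
    have := p1_nonpos (l-1) (n-l-2) (by linarith) (by linarith)
    have e1 : (l-1) + (n-l-2) + 3 = n := by ring
    have e2 : (l-1) + 1 = l := by ring
    rw [e1, e2] at this
    exact this
  have h2 : 0 ≤ (-(4*(16*(n+1)^2-4)^3*(16*(n^2-l^2))*((16*(n-1)^2-1)*16*(n-1+l)*n^3*(n-l)^3*(n+2)*(n+2-l)))+(16*n^2-1)^3*((16*(n^2-l^2))*((16*(n+2)^2-4)+(16*((n+1)^2-l^2))))*((16*((n-1)^2-l^2))-3+(16*n^2-1))*((n+1)^3*(n+1-l)^3*(n-1))) := by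
    have := p2_nonneg (l-1) (n-l-2) (by linarith) (by linarith)
    have e1 : (l-1) + (n-l-2) + 3 = n := by ring
    have e2 : (l-1) + 1 = l := by ring
    rw [e1, e2] at this
    exact this
  have h01 : 0 < ((16*(n+1)^2-4)^4*((16*(n-1)^2-1)*16*(n-1+l)*n^3*(n-l)^3*(n+2)*(n+2-l))-(16*n^2-1)^3*((16*(n+1)^2-4)*(16*(n+2)^2-4)-3*(16*((n+1)^2-l^2)))*((16*((n-1)^2-l^2))-3)*((n+1)^3*(n+1-l)^3*(n-1)))*(4*(4*l^2+3*n)) + 3*(4*(16*(n+1)^2-4)^3*((16*(n+1)^2-4)-(16*(n^2-l^2)))*((16*(n-1)^2-1)*16*(n-1+l)*n^3*(n-l)^3*(n+2)*(n+2-l))-(16*n^2-1)^3*(((16*(n+1)^2-4)*(16*(n+2)^2-4)-3*(16*((n+1)^2-l^2)))*((16*((n-1)^2-l^2))-3+(16*n^2-1))-((16*(n^2-l^2))*((16*(n+2)^2-4)+(16*((n+1)^2-l^2))))*((16*((n-1)^2-l^2))-3))*((n+1)^3*(n+1-l)^3*(n-1))) := by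
    have := p01_pos (l-1) (n-l-2) (by linarith) (by linarith)
    have e1 : (l-1) + (n-l-2) + 3 = n := by ring
    have e2 : (l-1) + 1 = l := by ring
    rw [e1, e2] at this
    exact this
  generalize hp0 : ((16*(n+1)^2-4)^4*((16*(n-1)^2-1)*16*(n-1+l)*n^3*(n-l)^3*(n+2)*(n+2-l))-(16*n^2-1)^3*((16*(n+1)^2-4)*(16*(n+2)^2-4)-3*(16*((n+1)^2-l^2)))*((16*((n-1)^2-l^2))-3)*((n+1)^3*(n+1-l)^3*(n-1))) = p0 at h01
  generalize hp1 : (4*(16*(n+1)^2-4)^3*((16*(n+1)^2-4)-(16*(n^2-l^2)))*((16*(n-1)^2-1)*16*(n-1+l)*n^3*(n-l)^3*(n+2)*(n+2-l))-(16*n^2-1)^3*(((16*(n+1)^2-4)*(16*(n+2)^2-4)-3*(16*((n+1)^2-l^2)))*((16*((n-1)^2-l^2))-3+(16*n^2-1))-((16*(n^2-l^2))*((16*(n+2)^2-4)+(16*((n+1)^2-l^2))))*((16*((n-1)^2-l^2))-3))*((n+1)^3*(n+1-l)^3*(n-1))) = p1 at h1 h01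
  generalize hp2 : (-(4*(16*(n+1)^2-4)^3*(16*(n^2-l^2))*((16*(n-1)^2-1)*16*(n-1+l)*n^3*(n-l)^3*(n+2)*(n+2-l)))+(16*n^2-1)^3*((16*(n^2-l^2))*((16*(n+2)^2-4)+(16*((n+1)^2-l^2))))*((16*((n-1)^2-l^2))-3+(16*n^2-1))*((n+1)^3*(n+1-l)^3*(n-1))) = p2 at h2
  -- abbreviations
  have hden : 0 < 4*(4*l^2+3*n) := by positivity
  have hz : 0 ≤ ((16*(n+1)^2-4)-(16*(n^2-l^2)))*s - (16*(n^2-l^2))*s^2 := by
    have h3 : (16*(n^2-l^2))*s ≤ (16*(n+1)^2-4)-(16*(n^2-l^2)) := by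
      have h4 : (16*(n^2-l^2))*s*(4*(4*l^2+3*n)) ≤ (16*(n^2-l^2))*3 := by
        have := mul_le_mul_of_nonneg_left hsu hD.le
        linarith
      have h5 : (16*(n^2-l^2))*3 ≤ ((16*(n+1)^2-4)-(16*(n^2-l^2)))*(4*(4*l^2+3*n)) := by
        have : 0 ≤ ((16*(n+1)^2-4)-(16*(n^2-l^2)))*(4*(4*l^2+3*n)) - (16*(n^2-l^2))*3 := by
          have e : ((16*(n+1)^2-4)-(16*(n^2-l^2)))*(4*(4*l^2+3*n)) - (16*(n^2-l^2))*3
            = 384*n^2 - 48*n^2 + 48*l^2 + 144*n + 256*l^4+ 512*n*l^2+192*l^2+192*l^2*n := by ring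
          rw [e]
          have : 0 ≤ 384*n^2 - 48*n^2 := hA3
          positivity
        linarith
      exact le_of_mul_le_mul_right (h4.trans h5) hden
    have : 0 ≤ s * ((16*(n+1)^2-4)-(16*(n^2-l^2)) - (16*(n^2-l^2))*s) :=
      mul_nonneg hs (by linarith)
    linarith
  -- Bernoulli
  have hB : ∀ A z : ℚ, 0 < A → 0 ≤ z → A^3*(A+4*z) ≤ (A+z)^4 := by
    intro A z hA hz
    have : (A+z)^4 - A^3*(A+4*z) = 6*A^2*z^2+4*A*z^3+z^4 := by ring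
    have h : 0 ≤ 6*A^2*z^2+4*A*z^3+z^4 := by positivity
    linarith
  have hB' := hB _ _ hA hz
  have hfac : (1+s)*((16*(n+1)^2-4)-(16*(n^2-l^2))*s)
      = (16*(n+1)^2-4) + (((16*(n+1)^2-4)-(16*(n^2-l^2)))*s - (16*(n^2-l^2))*s^2) := by ring
  rw [hfac]
  have hcL : 0 < 16*n^3*(n-l)^3*(n-1+l)*(16*(n-1)^2-1)*(n+2)*(n+2-l) := by
    have a1 : 0 < n-1+l := by linarith
    have a3 : 0 < n+2-l := by linarith
    positivity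
  refine lt_of_lt_of_le ?_ (mul_le_mul_of_nonneg_left hB' hcL.le)
  -- the quadratic
  have hq : 0 < p0 + p1*s + p2*s^2 := by
    have h6 : 0 < (p0 + p1*s)*(4*(4*l^2+3*n)) := by
      have h7 : p1*3 ≤ p1*(s*(4*(4*l^2+3*n))) := by
        have h8 := mul_le_mul_of_nonneg_left hsu h1
        linarith
      linarith
    have h9 : 0 < p0 + p1*s := by
      by_contra hcon
      push Not at hcon
      have := mul_nonpos_of_nonpos_of_nonneg hcon hden.le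
      linarith
    have h10 : 0 ≤ p2*s^2 := by positivity
    linarith
  rw [← hp0, ← hp1, ← hp2] at hq
  rw [← sub_pos]
  refine lt_of_lt_of_eq hq ?_
  ring

end Pool.Agent.W_MP_3b55a2_co
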