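import Pool.Agent.W_MP_3b55a2_co.Key
import Pool.Agent.W_MP_3b55a2_co.Defs

set_option autoImplicit false
set_option maxHeartbeats 4000000
set_option maxRecDepth 100000

namespace Pool.Agent.W_MP_3b55a2_co

open Finset

/-! ### The summand -/

/-- The summand, extended by zero for `k > m`. -/
def F (l m k : ℕ) : ℚ :=
  if k ≤ m then (2 : ℚ) ^ k * ((m - k).centralBinom : ℚ) * ((m + k).choose m : ℚ)
      * (k.choose l : ℚ) / (4 : ℚ) ^ m else 0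

theorem borosMoll_eq (l m N : ℕ) (hN : m ≤ N) :
    borosMoll l m = ∑ k ∈ Finset.range (N + 1), F l m k := by
  have h1 : ∑ k ∈ Finset.range (N + 1), F l m k = ∑ k ∈ Finset.Icc l m, F l m k := by
    symm
    apply Finset.sum_subset
    · intro k hk
      simp only [Finset.mem_Icc, Finset.mem_range] at *
      omega
    · intro k hk hk2
      simp only [Finset.mem_Icc, Finset.mem_range, not_and, not_le] at *
      unfold F
      by_cases h : l ≤ k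
      · rw [if_neg (by have := hk2 h; omega)]
      · split_ifs
        · rw [Nat.choose_eq_zero_of_lt (by omega : k < l)]; simp
        · rfl
  rw [h1, borosMoll, Finset.sum_div]
  apply Finset.sum_congr rfl
  intro k hk
  simp only [Finset.mem_Icc] at hk
  unfold F
  rw [if_pos hk.2, Nat.centralBinom_eq_two_mul_choose]
  have : 2 * m - 2 * k = 2 * (m - k) := by omega
  rw [this, pow_mul]
  norm_num

/-- F(m+1,k) in terms of F(m,k). -/
theorem F_succ (l m k : ℕ) :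
    ((m:ℚ)+1-k) * (2*((m:ℚ)+1)) * F l (m+1) k = (2*(m:ℚ)-2*k+1)*((m:ℚ)+1+k) * F l m k := by
  unfold F
  by_cases h : k ≤ m
  · obtain ⟨j, rfl⟩ := Nat.exists_eq_add_of_le h
    rw [if_pos h, if_pos (by omega)]
    have e1 : k + j + 1 - k = j + 1 := by omega
    have e2 : k + j - k = j := by omega
    rw [e1, e2]
    have c1 : ((j:ℚ)+1) * ((j+1).centralBinom : ℚ) = 2*(2*(j:ℚ)+1) * (j.centralBinom : ℚ) := by
      have := Nat.succ_mul_centralBinom_succ j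
      exact_mod_cast this
    have c2 : ((k:ℚ)+j+1) * (((k+j+1+k).choose (k+j+1) : ℕ) : ℚ)
        = ((k:ℚ)+j+k+1) * (((k+j+k).choose (k+j) : ℕ) : ℚ) := by
      have h3 : (k + j + k + 1).choose (k + j + 1) * (k + j + 1)
          = (k+j+k+1) * (k+j+k).choose (k+j) := by
        have := Nat.add_one_mul_choose_eq (k+j+k) (k+j)
        linarith
      have h4 : k + j + 1 + k = k + j + k + 1 := by ring
      rw [h4]
      have h5 : (((k + j + k + 1).choose (k + j + 1) : ℕ) : ℚ) * ((k:ℚ) + j + 1)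
          = ((k:ℚ)+j+k+1) * (((k+j+k).choose (k+j) : ℕ) : ℚ) := by exact_mod_cast h3
      linarith
    push_cast
    have hp : (4:ℚ)^(k+j) ≠ 0 := by positivity
    rw [pow_succ (4:ℚ) (k+j)]
    field_simp
    have key : ((j:ℚ)+1) * ((j+1).centralBinom : ℚ) * (((k:ℚ)+j+1) * (((k+j+1+k).choose (k+j+1) : ℕ) : ℚ))
      = (2*(2*(j:ℚ)+1) * (j.centralBinom : ℚ)) * (((k:ℚ)+j+k+1) * (((k+j+k).choose (k+j) : ℕ) : ℚ)) := by
      rw [c1, c2]
    linear_combination (2:ℚ) * (k.choose l : ℚ) * key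
  · rw [if_neg h]
    by_cases h2 : k ≤ m + 1
    · have : k = m + 1 := by omega
      subst this
      push_cast
      ring
    · rw [if_neg h2]; ring

/-- F(m,k+1) in terms of F(m,k). -/
theorem F_succ_right (l m k : ℕ) :
    (2*(m:ℚ)-2*k-1)*((k:ℚ)+1-l) * F l m (k+1) = ((m:ℚ)-k)*((m:ℚ)+k+1) * F l m k := by
  unfold F
  by_cases h : k + 1 ≤ m
  · obtain ⟨j, rfl⟩ := Nat.exists_eq_add_of_le h
    rw [if_pos h, if_pos (by omega)]
    have e1 : k + 1 + j - (k + 1) = j := by omega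
    have e2 : k + 1 + j - k = j + 1 := by omega
    rw [e1, e2]
    have c1 : ((j:ℚ)+1) * ((j+1).centralBinom : ℚ) = 2*(2*(j:ℚ)+1) * (j.centralBinom : ℚ) := by
      have := Nat.succ_mul_centralBinom_succ j
      exact_mod_cast this
    have c2 : (((k + 1 + j + (k+1)).choose (k+1+j) : ℕ) : ℚ) * ((k:ℚ)+1)
        = (((k+1+j+k).choose (k+1+j) : ℕ) : ℚ) * ((k:ℚ)+1+j+k+1) := by
      have h3 := Nat.choose_mul_succ_eq (k+1+j+k) (k+1+j)
      have h4 : k + 1 + j + k + 1 - (k+1+j) = k + 1 := by omega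
      rw [h4] at h3
      have h5 : k + 1 + j + (k+1) = k+1+j+k+1 := by ring
      rw [h5]
      have h6 : (((k+1+j+k).choose (k+1+j) : ℕ) : ℚ) * ((k:ℚ)+1+j+k+1)
        = (((k+1+j+k+1).choose (k+1+j) : ℕ) : ℚ) * ((k:ℚ)+1) := by exact_mod_cast h3
      linarith
    have c3 : ((k:ℚ)+1-l) * ((k+1).choose l : ℚ) = ((k:ℚ)+1) * (k.choose l : ℚ) := by
      by_cases hkl : l ≤ k + 1
      · have h3 := Nat.choose_mul_succ_eq k l
        have h6 : ((k.choose l : ℕ) : ℚ) * ((k:ℚ)+1) = (((k+1).choose l : ℕ) : ℚ) * (((k+1-l : ℕ)) : ℚ) := by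
          exact_mod_cast h3
        rw [Nat.cast_sub hkl] at h6
        push_cast at h6
        linarith
      · rw [Nat.choose_eq_zero_of_lt (by omega : k + 1 < l), Nat.choose_eq_zero_of_lt (by omega : k < l)]
        simp
    push_cast
    have hk1 : ((k:ℚ)+1) ≠ 0 := by positivity
    rw [pow_succ (2:ℚ) k]
    rw [← mul_right_inj' hk1]
    generalize ((k + 1 + j + (k+1)).choose (k+1+j) : ℕ) = X at *
    generalize ((k+1+j+k).choose (k+1+j) : ℕ) = Y at *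
    generalize ((k+1).choose l : ℕ) = Z at *
    generalize (k.choose l : ℕ) = W at *
    generalize ((j+1).centralBinom : ℕ) = U at *
    generalize (j.centralBinom : ℕ) = V at *
    have key : ((k:ℚ)+1-l) * (Z:ℚ) * ((X:ℚ) * ((k:ℚ)+1))
        = (((k:ℚ)+1) * (W:ℚ)) * ((Y : ℚ) * ((k:ℚ)+1+j+k+1)) := by
      rw [c2, c3]
    linear_combination ((2:ℚ)^k/(4:ℚ)^(k+1+j)) * ((2:ℚ) * (2*(j:ℚ)+1) * (V : ℚ) * key
      - ((k:ℚ)+1) * (W : ℚ) * (Y : ℚ) * ((k:ℚ)+1+j+k+1) * c1)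
  · rw [if_neg h]
    by_cases h2 : k ≤ m
    · have : k = m := by omega
      subst this
      ring
    · rw [if_neg h2]; ring

theorem odd_ne (m k : ℕ) : (2*(m:ℚ)-2*k+1) ≠ 0 := by
  intro h
  have h2 : (2*(m:ℤ)-2*k+1) = 0 := by exact_mod_cast h
  omega

theorem odd_ne' (m k : ℕ) : (2*(m:ℚ)-2*k+3) ≠ 0 := by
  intro h
  have h2 : (2*(m:ℤ)-2*k+3) = 0 := by exact_mod_cast h
  omega

/-- Zeilberger certificate. -/
def G (l m k : ℕ) : ℚ :=
  ((k:ℚ)-l) * (4*((m:ℚ)+1)*(m+2)*(m+1+l) - (8*(m:ℚ)^2+20*m+14-4*l)*k + 4*((m:ℚ)+2-l)*k^2)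
    * (4*((m:ℚ)+1)*(m+2)) * F l (m+2) k / (((m:ℚ)+1+k)*(m+2+k)*(2*(m:ℚ)-2*k+3))

theorem cert_step (K e l X Y1 Y2 Z : ℚ) (n1 : 2*e+1 ≠ 0) (n2 : 2*e+3 ≠ 0) (n3 : K+e+1+K ≠ 0)
    (n4 : K+e+2+K ≠ 0) (n5 : K+e+3+K ≠ 0)
    (h1 : (e+2)*(2*(K+e+2))*X = (2*e+3)*(K+e+2+K)*Y1)
    (h2 : (e+1)*(2*(K+e+1))*Y1 = (2*e+1)*(K+e+1+K)*Y2)
    (h3 : (2*e+3)*(K+1-l)*Z = (e+2)*(K+e+3+K)*X) :
    (K-l) * (4*((K+e)+1)*((K+e)+2)*((K+e)+1+l) - (8*(K+e)^2+20*(K+e)+14-4*l)*K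
        + 4*((K+e)+2-l)*K^2)
      * (4*((K+e)+1)*((K+e)+2)) * X / (((K+e)+1+K)*((K+e)+2+K)*(2*e+3))
    + (4*((K+e)+2-l)*((K+e)+1)*((K+e)+2) * X
      - 2*((K+e)+1)*(8*(K+e)^2+24*(K+e)+19-4*l^2) * Y1
      + ((K+e)+l+1)*(4*(K+e)+3)*(4*(K+e)+5) * Y2)
    = ((K+1)-l) * (4*((K+e)+1)*((K+e)+2)*((K+e)+1+l) - (8*(K+e)^2+20*(K+e)+14-4*l)*(K+1)
        + 4*((K+e)+2-l)*(K+1)^2)
      * (4*((K+e)+1)*((K+e)+2)) * Z / (((K+e)+1+(K+1))*((K+e)+2+(K+1))*(2*e+1)) := by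
  obtain ⟨W, hW⟩ : ∃ W, X = (2*e+3)*(2*e+1)*(K+e+2+K)*(K+e+1+K)*W :=
    ⟨X/((2*e+3)*(2*e+1)*(K+e+2+K)*(K+e+1+K)), by
      rw [mul_div_cancel₀]; exact mul_ne_zero (mul_ne_zero (mul_ne_zero n2 n1) n4) n3⟩
  have e1 : Y1 = 2*(e+2)*(K+e+2)*(2*e+1)*(K+e+1+K)*W := by
    apply mul_left_cancel₀ (mul_ne_zero n2 n4)
    rw [← h1, hW]; ring
  have e2 : Y2 = 4*(e+1)*(K+e+1)*(e+2)*(K+e+2)*W := by
    apply mul_left_cancel₀ (mul_ne_zero n1 n3)
    rw [← h2, e1]; ring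
  have e3 : (K+1-l)*Z = (e+2)*(K+e+3+K)*(2*e+1)*(K+e+2+K)*(K+e+1+K)*W := by
    apply mul_left_cancel₀ n2
    rw [← mul_assoc, h3, hW]; ring
  have g1 : (K-l) * (4*((K+e)+1)*((K+e)+2)*((K+e)+1+l) - (8*(K+e)^2+20*(K+e)+14-4*l)*K
        + 4*((K+e)+2-l)*K^2)
      * (4*((K+e)+1)*((K+e)+2)) * X / (((K+e)+1+K)*((K+e)+2+K)*(2*e+3))
      = (K-l) * (4*((K+e)+1)*((K+e)+2)*((K+e)+1+l) - (8*(K+e)^2+20*(K+e)+14-4*l)*K
        + 4*((K+e)+2-l)*K^2)
      * (4*((K+e)+1)*((K+e)+2)) * ((2*e+1)*W) := by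
    rw [div_eq_iff (mul_ne_zero (mul_ne_zero n3 n4) n2), hW]; ring
  have g2 : ((K+1)-l) * (4*((K+e)+1)*((K+e)+2)*((K+e)+1+l) - (8*(K+e)^2+20*(K+e)+14-4*l)*(K+1)
        + 4*((K+e)+2-l)*(K+1)^2)
      * (4*((K+e)+1)*((K+e)+2)) * Z / (((K+e)+1+(K+1))*((K+e)+2+(K+1))*(2*e+1))
      = (4*((K+e)+1)*((K+e)+2)*((K+e)+1+l) - (8*(K+e)^2+20*(K+e)+14-4*l)*(K+1)
        + 4*((K+e)+2-l)*(K+1)^2)
      * (4*((K+e)+1)*((K+e)+2)) * ((e+2)*(K+e+1+K)*W) := by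
    have n6 : K+e+1+(K+1) ≠ 0 := by intro h; apply n4; linarith
    have n7 : K+e+2+(K+1) ≠ 0 := by intro h; apply n5; linarith
    rw [div_eq_iff (mul_ne_zero (mul_ne_zero n6 n7) n1)]
    linear_combination (4*((K+e)+1)*((K+e)+2)*((K+e)+1+l)
      - (8*(K+e)^2+20*(K+e)+14-4*l)*(K+1) + 4*((K+e)+2-l)*(K+1)^2)
      * (4*((K+e)+1)*((K+e)+2)) * e3
  rw [g1, g2, e1, e2, hW]
  ring

theorem telescope (l m : ℕ) (K : ℕ) :
    ∑ k ∈ Finset.range K, (4*((m:ℚ)+2-l)*(m+1)*(m+2) * F l (m+2) k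
      - 2*((m:ℚ)+1)*(8*(m:ℚ)^2+24*m+19-4*(l:ℚ)^2) * F l (m+1) k
      + ((m:ℚ)+l+1)*(4*m+3)*(4*m+5) * F l m k) = G l m K := by
  induction K with
  | zero =>
    simp only [Finset.range_zero, Finset.sum_empty, G]
    rcases Nat.eq_zero_or_pos l with rfl | hl
    · simp
    · have : F l (m+2) 0 = 0 := by
        unfold F
        rw [Nat.choose_eq_zero_of_lt hl]; simp
      rw [this]; simp
  | succ K ih =>
    rw [Finset.sum_range_succ, ih]
    have h1 := F_succ l (m+1) K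
    have h2 := F_succ l m K
    have h3 := F_succ_right l (m+2) K
    have n1 := odd_ne m K
    have n2 := odd_ne' m K
    have n3 : ((m:ℚ)+1+K) ≠ 0 := by positivity
    have n4 : ((m:ℚ)+2+K) ≠ 0 := by positivity
    have n5 : ((m:ℚ)+3+K) ≠ 0 := by positivity
    unfold G
    have := cert_step (K:ℚ) ((m:ℚ)-K) l (F l (m+2) K) (F l (m+1) K) (F l m K) (F l (m+2) (K+1))
      (by intro h; apply n1; linarith) (by intro h; apply n2; linarith)
      (by intro h; apply n3; linarith) (by intro h; apply n4; linarith)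
      (by intro h; apply n5; linarith)
      (by push_cast at h1; linear_combination h1)
      (by linear_combination h2)
      (by push_cast at h3; linear_combination h3)
    push_cast
    convert this using 2 <;> ring

/-- Three-term recurrence for the Boros-Moll numbers. -/
theorem recurrence (l m : ℕ) :
    4*((m:ℚ)+2-l)*(m+1)*(m+2) * borosMoll l (m+2)
      - 2*((m:ℚ)+1)*(8*(m:ℚ)^2+24*m+19-4*(l:ℚ)^2) * borosMoll l (m+1)
      + ((m:ℚ)+l+1)*(4*m+3)*(4*m+5) * borosMoll l m = 0 := by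
  rw [borosMoll_eq l (m+2) (m+2) le_rfl, borosMoll_eq l (m+1) (m+2) (by omega),
    borosMoll_eq l m (m+2) (by omega), Finset.mul_sum, Finset.mul_sum, Finset.mul_sum,
    ← Finset.sum_sub_distrib, ← Finset.sum_add_distrib, telescope]
  unfold G F
  rw [if_neg (by omega)]
  simp

theorem borosMoll_pos (l m : ℕ) (h : l ≤ m) : 0 < borosMoll l m := by
  unfold borosMoll
  apply div_pos _ (by positivity)
  apply Finset.sum_pos
  · intro k hk
    simp only [Finset.mem_Icc] at hk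
    have h1 : 0 < (2*m-2*k).choose (m-k) := Nat.choose_pos (by omega)
    have h2 : 0 < (m+k).choose m := Nat.choose_pos (by omega)
    have h3 : 0 < k.choose l := Nat.choose_pos hk.1
    positivity
  · exact ⟨l, by simp [h]⟩

theorem borosMoll_zero (l m : ℕ) (h : m < l) : borosMoll l m = 0 := by
  unfold borosMoll
  rw [Finset.Icc_eq_empty (by omega)]
  simp

/-- The normalised ratio: with `n = k + 1`,
`1 + sg = (16 n^2 - 1) d(n-1) / (8 n (n-l) d(n))`. -/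
def sg (l k : ℕ) : ℚ :=
  (16*((k:ℚ)+1)^2-1) * borosMoll l k / (8*((k:ℚ)+1)*((k:ℚ)+1-l) * borosMoll l (k+1)) - 1

theorem sg_def (l k : ℕ) (h : l ≤ k) :
    8*((k:ℚ)+1)*((k:ℚ)+1-l) * (1 + sg l k) * borosMoll l (k+1)
      = (16*((k:ℚ)+1)^2-1) * borosMoll l k := by
  have h1 : borosMoll l (k+1) ≠ 0 := (borosMoll_pos l (k+1) (by omega)).ne'
  have h2 : ((k:ℚ)+1-l) ≠ 0 := by
    have : (l:ℚ) ≤ k := by exact_mod_cast h
    intro h3; linarith
  have h3 : ((k:ℚ)+1) ≠ 0 := by positivity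
  unfold sg
  field_simp
  ring

theorem sg_next (l k : ℕ) (h : l ≤ k) :
    8*((k:ℚ)+2)*((k:ℚ)+2-l) * borosMoll l (k+2)
      = ((16*((k:ℚ)+2)^2-4) - 16*(((k:ℚ)+1)^2-(l:ℚ)^2) * sg l k) * borosMoll l (k+1) := by
  have h1 := recurrence l k
  have h2 := sg_def l k h
  have h3 : ((k:ℚ)+1) ≠ 0 := by positivity
  apply mul_left_cancel₀ h3
  linear_combination 2 * h1 + (2*((k:ℚ)+l+1)) * h2

theorem sg_base (l : ℕ) (hl : 1 ≤ l) :
    sg l l * (4*(2*(l:ℚ)+1)*(2*(l:ℚ)+3)) = 3 := by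
  obtain ⟨j, rfl⟩ : ∃ j, l = j + 1 := ⟨l - 1, by omega⟩
  have h1 := recurrence (j+1) j
  rw [borosMoll_zero (j+1) j (by omega)] at h1
  have h2 := sg_def (j+1) (j+1) le_rfl
  have h3 : borosMoll (j+1) (j+1) ≠ 0 := (borosMoll_pos _ _ le_rfl).ne'
  push_cast at *
  have h4 : ((j:ℚ)+1+1) ≠ 0 := by positivity
  have h5 : ((j:ℚ)+1) ≠ 0 := by positivity
  have h6 : 2*((j:ℚ)+1+1) * borosMoll (j+1) (j+2)
      = (2*((j:ℚ)+1)+1)*(2*((j:ℚ)+1)+3) * borosMoll (j+1) (j+1) := by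
    apply mul_left_cancel₀ h5
    linear_combination (1/2) * h1
  have h7 : borosMoll (j+1) (j+1+1) = borosMoll (j+1) (j+2) := rfl
  rw [h7] at h2
  apply mul_right_cancel₀ h3
  linear_combination h2 - 4 * (1 + sg (j+1) (j+1)) * h6

theorem sg_bounds (l : ℕ) (hl : 1 ≤ l) (k : ℕ) (h : l ≤ k) :
    0 ≤ sg l k ∧ sg l k * (4*(4*(l:ℚ)^2+3*((k:ℚ)+1))) ≤ 3 := by
  induction k, h using Nat.le_induction with
  | base =>
    have h1 := sg_base l hl
    have hl' : (1:ℚ) ≤ l := by exact_mod_cast hl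
    have h2 : 0 < 4*(2*(l:ℚ)+1)*(2*(l:ℚ)+3) := by positivity
    have h3 : 0 ≤ sg l l := by
      by_contra hc
      push Not at hc
      have := mul_neg_of_neg_of_pos hc h2
      linarith
    refine ⟨h3, ?_⟩
    have h4 : 4*(4*(l:ℚ)^2+3*((l:ℚ)+1)) ≤ 4*(2*(l:ℚ)+1)*(2*(l:ℚ)+3) := by nlinarith
    have := mul_le_mul_of_nonneg_left h4 h3
    linarith
  | succ k h ih =>
    obtain ⟨ih1, ih2⟩ := ih
    have hl' : (1:ℚ) ≤ l := by exact_mod_cast hl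
    have hk' : (l:ℚ) ≤ k := by exact_mod_cast h
    have r1 := sg_next l k h
    have r2 := sg_def l (k+1) (by omega)
    have hpos : 0 < borosMoll l (k+1) := borosMoll_pos _ _ (by omega)
    push_cast at *
    have r3 : (1 + sg l (k+1)) * ((16*((k:ℚ)+2)^2-4) - 16*(((k:ℚ)+1)^2-(l:ℚ)^2) * sg l k)
        = 16*((k:ℚ)+2)^2-1 := by
      apply mul_right_cancel₀ hpos.ne'
      have e : borosMoll l (k+1+1) = borosMoll l (k+2) := rfl
      rw [e] at r2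
      linear_combination r2 - (1 + sg l (k+1)) * r1
    generalize sg l (k+1) = t at *
    generalize sg l k = s at *
    have hD : 0 ≤ 16*(((k:ℚ)+1)^2-(l:ℚ)^2) := by nlinarith
    have hq : 0 < 4*(4*(l:ℚ)^2+3*((k:ℚ)+1)) := by positivity
    -- D*s*q ≤ 3 D
    have h1 : 16*(((k:ℚ)+1)^2-(l:ℚ)^2) * s * (4*(4*(l:ℚ)^2+3*((k:ℚ)+1)))
        ≤ 3 * (16*(((k:ℚ)+1)^2-(l:ℚ)^2)) := by
      have := mul_le_mul_of_nonneg_left ih2 hD
      linarith
    generalize hX : 16*(((k:ℚ)+1)^2-(l:ℚ)^2) * s = X at *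
    have hX0 : 0 ≤ X := by rw [← hX]; positivity
    -- X < A
    have hXA : 3*(4*(4*(l:ℚ)^2+3*((k:ℚ)+1+1))) + X*(4*(4*(l:ℚ)^2+3*((k:ℚ)+1+1))+3)
        ≤ 3*(16*((k:ℚ)+2)^2-4) := by
      have h2 : (3*(4*(4*(l:ℚ)^2+3*((k:ℚ)+1+1))) + X*(4*(4*(l:ℚ)^2+3*((k:ℚ)+1+1))+3))
          * (4*(4*(l:ℚ)^2+3*((k:ℚ)+1)))
          ≤ (3*(16*((k:ℚ)+2)^2-4)) * (4*(4*(l:ℚ)^2+3*((k:ℚ)+1))) := by
        have h3 : 0 ≤ (4*(4*(l:ℚ)^2+3*((k:ℚ)+1+1))+3) := by positivity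
        have h4 := mul_le_mul_of_nonneg_left h1 h3
        have h5 : 0 ≤ (l:ℚ)^2*((k:ℚ)+1) := by positivity
        have h6 : 0 ≤ (l:ℚ)^2 := by positivity
        nlinarith [h4, h5, h6]
      exact le_of_mul_le_mul_right h2 hq
    have hXA' : X < 16*((k:ℚ)+2)^2-4 := by
      have h3 : 0 ≤ X * (4*(4*(l:ℚ)^2+3*((k:ℚ)+1+1))) := by positivity
      have h4 : 0 < 4*(4*(l:ℚ)^2+3*((k:ℚ)+1+1)) := by positivity
      linarith
    have hpos2 : 0 < (16*((k:ℚ)+2)^2-4) - X := by linarith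
    have r4 : t * ((16*((k:ℚ)+2)^2-4) - X) = 3 + X := by linarith
    constructor
    · by_contra hc
      push Not at hc
      have := mul_neg_of_neg_of_pos hc hpos2
      linarith
    · have : t * (4*(4*(l:ℚ)^2+3*((k:ℚ)+1+1))) * ((16*((k:ℚ)+2)^2-4) - X)
          ≤ 3 * ((16*((k:ℚ)+2)^2-4) - X) := by
        have e : t * (4*(4*(l:ℚ)^2+3*((k:ℚ)+1+1))) * ((16*((k:ℚ)+2)^2-4) - X)
          = (t * ((16*((k:ℚ)+2)^2-4) - X)) * (4*(4*(l:ℚ)^2+3*((k:ℚ)+1+1))) := by ring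
        rw [e, r4]
        linarith
      exact le_of_mul_le_mul_right this hpos2

theorem abstract_step (n L s u v w p q : ℚ) (hL : 1 ≤ L) (hn : L + 2 ≤ n) (hs : 0 ≤ s)
    (hsu : s * (4*(4*L^2+3*n)) ≤ 3) (hw : 0 < w)
    (Ra : (16*n^2-1) * v = 8*n*(n-L)*(1+s)*w)
    (Rb : 8*(n+1)*(n+1-L)*p = ((16*(n+1)^2-4)-(16*(n^2-L^2))*s)*w)
    (rc : 4*(n+2-L)*(n+1)*(n+2) * q - 2*(n+1)*(8*n^2+24*n+19-4*L^2) * p
      + (n+L+1)*(4*n+3)*(4*n+5) * w = 0)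
    (rd : 4*(n-L)*(n-1)*n * w - 2*(n-1)*(8*n^2-8*n+3-4*L^2) * v
      + (n+L-1)*(16*(n-1)^2-1) * u = 0) :
    u * q * w^6 < v^4 * p^4 := by
  have hE : 0 < 16*n^2-1 := by clear Ra Rb rc rd hsu; nlinarith
  have hEm : 0 < 16*(n-1)^2-1 := by clear Ra Rb rc rd hsu; nlinarith
  have key := Pool.Agent.W_MP_3b55a2_co.key n L s hL hn hs hsu
  have p1 : 0 < n - 1 + L := by linarith
  have p2 : 0 < n + 1 - L := by linarith
  have p3 : 0 < n + 2 - L := by linarith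
  have p4 : 0 < n - L := by linarith
  have p5 : 0 < n := by linarith
  have p6 : 0 < n - 1 := by linarith
  have p7 : 0 < n + 1 := by linarith
  have p8 : 0 < n + 2 := by linarith
  have Rc : 64*(n+1)*(n+1-L)*(n+2)*(n+2-L)*q
      = (((16*(n+1)^2-4)*(16*(n+2)^2-4)-3*(16*((n+1)^2-L^2)))
        - (16*(n^2-L^2))*((16*(n+2)^2-4)+16*((n+1)^2-L^2))*s)*w := by
    linear_combination 16*(n+1-L) * rc + (4*(8*n^2+24*n+19-4*L^2)) * Rb
  have Rd : (16*n^2-1)*(n-1+L)*(16*(n-1)^2-1)*u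
      = 4*(n-1)*n*(n-L)*((16*((n-1)^2-L^2)-3)+(16*((n-1)^2-L^2)-3+(16*n^2-1))*s)*w := by
    linear_combination (16*n^2-1) * rd + (2*(n-1)*(8*n^2-8*n+3-4*L^2)) * Ra
  clear rc rd hsu
  generalize hQ : (1+s)*((16*(n+1)^2-4)-(16*(n^2-L^2))*s) = Q at key
  generalize (((16*(n+1)^2-4)*(16*(n+2)^2-4)-3*(16*((n+1)^2-L^2)))
        - (16*(n^2-L^2))*((16*(n+2)^2-4)+16*((n+1)^2-L^2))*s) = al at key Rc
  generalize ((16*((n-1)^2-L^2)-3)+(16*((n-1)^2-L^2)-3+(16*n^2-1))*s) = ga at key Rd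
  have RQ : ((16*n^2-1) * v) * (8*(n+1)*(n+1-L)*p) = 8*n*(n-L)*Q*w^2 := by
    rw [Ra, Rb, ← hQ]; ring
  clear Ra Rb hQ
  generalize 16*n^2-1 = E at *
  generalize 16*(n-1)^2-1 = Em at *
  have hC : 0 < E*(n-1+L)*Em*(64*(n+1)*(n+1-L)*(n+2)*(n+2-L))*(E*(8*(n+1)*(n+1-L)))^4 := by
    positivity
  apply lt_of_mul_lt_mul_left _ hC.le
  generalize n + 1 - L = c1 at *
  generalize n + 2 - L = c2 at *
  generalize n - L = c0 at *
  generalize n - 1 + L = c3 at *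
  generalize n + 1 = n1 at *
  generalize n + 2 = n2 at *
  generalize n - 1 = n0 at *
  have L1 : E*c3*Em*(64*n1*c1*n2*c2)*(E*(8*n1*c1))^4
      * (u * q * w^6) = (E*8^4*4*n1*c1*n*c0*w^8)
        * (n0*ga*al*E^3*n1^3*c1^3) := by
    have : E*c3*Em*(64*n1*c1*n2*c2)*(E*(8*n1*c1))^4
      * (u * q * w^6) = (E*c3*Em*u)*(64*n1*c1*n2*c2*q)
        *(E*(8*n1*c1))^4*w^6 := by ring
    rw [this, Rd, Rc]; ring
  have L2 : E*c3*Em*(64*n1*c1*n2*c2)*(E*(8*n1*c1))^4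
      * (v^4 * p^4) = (E*8^4*4*n1*c1*n*c0*w^8)
        * (16*n^3*c0^3*c3*Em*n2*c2*Q^4) := by
    have : E*c3*Em*(64*n1*c1*n2*c2)*(E*(8*n1*c1))^4
      * (v^4 * p^4) = E*c3*Em*(64*n1*c1*n2*c2)
        *((E * v) * (8*n1*c1*p))^4 := by ring
    rw [this, RQ]; ring
  rw [L1, L2]
  exact mul_lt_mul_of_pos_left key (by positivity)

theorem main_ineq (l k : ℕ) (hl : 1 ≤ l) (hk : l ≤ k) :
    borosMoll l k * borosMoll l (k+4) * borosMoll l (k+2)^6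
      < borosMoll l (k+1)^4 * borosMoll l (k+3)^4 := by
  have hl' : (1:ℚ) ≤ l := by exact_mod_cast hl
  have hk' : (l:ℚ) ≤ k := by exact_mod_cast hk
  obtain ⟨b1, b2⟩ := sg_bounds l hl (k+1) (by omega)
  have hw : 0 < borosMoll l (k+2) := borosMoll_pos _ _ (by omega)
  have ra := sg_def l (k+1) (by omega)
  have rb := sg_next l (k+1) (by omega)
  have rc := recurrence l (k+2)
  have rd := recurrence l k
  have e1 : borosMoll l (k+1+1) = borosMoll l (k+2) := rfl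
  have e2 : borosMoll l (k+1+2) = borosMoll l (k+3) := rfl
  have e3 : borosMoll l (k+2+1) = borosMoll l (k+3) := rfl
  have e4 : borosMoll l (k+2+2) = borosMoll l (k+4) := rfl
  rw [e1] at ra rb
  rw [e2] at rb
  rw [e3, e4] at rc
  push_cast at *
  refine abstract_step ((k:ℚ)+2) l (sg l (k+1)) _ _ _ _ _ hl' (by linarith) b1
    (by linarith) hw ?_ ?_ ?_ ?_
  · linear_combination -ra
  · linear_combination rb
  · linear_combination rc
  · linear_combination rd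

/-- **Main theorem.** For every `l ≥ 1` the sequence `x_l(m)`, `m ≥ l+1`, is strictly
log-concave: `x_l(m-1) x_l(m+1) < x_l(m)^2` for all `m ≥ l+2`. -/
theorem strict_log_concave : ∀ l m : ℕ, 1 ≤ l → l + 2 ≤ m →
    secondRatio l (m - 1) * secondRatio l (m + 1) < secondRatio l m ^ 2 := by
  intro l m hl hm
  obtain ⟨k, rfl⟩ : ∃ k, m = k + 2 := ⟨m - 2, by omega⟩
  have hk : l ≤ k := by omega
  have h := main_ineq l k hl hk
  have h1 : 0 < borosMoll l (k+1) := borosMoll_pos _ _ (by omega)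
  have h2 : 0 < borosMoll l (k+2) := borosMoll_pos _ _ (by omega)
  have h3 : 0 < borosMoll l (k+3) := borosMoll_pos _ _ (by omega)
  unfold secondRatio
  have e1 : k + 2 - 1 - 1 = k := by omega
  have e2 : k + 2 - 1 + 1 = k + 2 := by omega
  have e3 : k + 2 - 1 = k + 1 := by omega
  have e4 : k + 2 + 1 - 1 = k + 2 := by omega
  have e5 : k + 2 + 1 + 1 = k + 4 := by omega
  have e6 : k + 2 + 1 = k + 3 := by omega
  rw [e1, e2, e3, e4, e5, e6, div_mul_div_comm, div_pow, div_lt_div_iff₀ (by positivity)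
    (by positivity)]
  have h4 : 0 < borosMoll l (k+1)^2 * borosMoll l (k+3)^2 := by positivity
  generalize borosMoll l k = u at *
  generalize borosMoll l (k+1) = v at *
  generalize borosMoll l (k+2) = w at *
  generalize borosMoll l (k+3) = p at *
  generalize borosMoll l (k+4) = q at *
  calc u * w * (w * q) * (w^2)^2 = u * q * w^6 := by ring
    _ < v^4 * p^4 := h
    _ = (v*p)^2 * (v^2 * p^2) := by ring

end Pool.Agent.W_MP_3b55a2_co
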